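import Pool.Agent.H76.SW.CT

/-!
Module CBC: codes of simple bodies.
-/

namespace Pool.Agent.H60.SW

open Relation Pool.Agent.H76.SW

/-- The embedding of the letters. -/
def upl {A : Type} {c : ℕ} (l : A × Bool) : (A ⊕ Fin c) × Bool := (Sum.inl l.1, l.2)

/-- The automaton restricted to the letters of `A`. -/
def rst {A : Type} {c st : ℕ} (M : NFA ((A ⊕ Fin c) × Bool) (Fin st)) :
    NFA (A × Bool) (Fin st) where
  step s l := M.step s (upl l)
  start := M.start
  accept := M.accept

theorem rst_accepts {A : Type} {c st : ℕ} (M : NFA ((A ⊕ Fin c) × Bool) (Fin st))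
    (w : List (A × Bool)) : w ∈ (rst M).accepts ↔ w.map upl ∈ M.accepts := by
  have h : ∀ (w : List (A × Bool)) (S : Set (Fin st)),
      (rst M).evalFrom S w = M.evalFrom S (w.map upl) := by
    intro w
    induction w with
    | nil => intro S; rfl
    | cons l w ih =>
      intro S
      exact ih _
  change (∃ S ∈ M.accept, S ∈ (rst M).evalFrom M.start w) ↔
    ∃ S ∈ M.accept, S ∈ M.evalFrom M.start (w.map upl)
  rw [h]

theorem path_upl {A V : Type} {c : ℕ} (E0 : V → A → V → Prop) (R : Fin c → V → V → Prop)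
    (w : List (A × Bool)) : ∀ u v : V, Path (ext E0 R) u (w.map upl) v ↔ Path E0 u w v := by
  induction w with
  | nil =>
    intro u v
    constructor
    · intro h
      cases h
      exact Path.nil u
    · intro h
      cases h
      exact Path.nil u
  | cons l w ih =>
    intro u v
    constructor
    · intro h
      cases h with
      | cons _ t _ _ _ hs hp => exact Path.cons u t v l w hs ((ih t v).mp hp)
    · intro h
      cases h with
      | cons _ t _ _ _ hs hp => exact Path.cons u t v (upl l) _ hs ((ih t v).mpr hp)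

theorem exists_upl {A : Type} {c : ℕ} (w : List ((A ⊕ Fin c) × Bool))
    (h : ∀ l ∈ w, ∃ a, l.1 = Sum.inl a) : ∃ w' : List (A × Bool), w = w'.map upl := by
  induction w with
  | nil => exact ⟨[], rfl⟩
  | cons l w ih =>
    obtain ⟨a, ha⟩ := h l List.mem_cons_self
    obtain ⟨w', hw'⟩ := ih fun l hl => h l (List.mem_cons_of_mem _ hl)
    refine ⟨(a, l.2) :: w', ?_⟩
    rw [List.map_cons, ← hw']
    congr 1
    exact Prod.ext ha rfl

theorem mem_trU (M s l s' : ℕ) (bb : Bool) (hs : s < M) (hl : l < M) (hs' : s' < M) :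
    ((s, (l, bb)), s') ∈ trU M := by
  unfold trU
  rw [List.mem_flatMap]
  refine ⟨s, List.mem_range.mpr hs, ?_⟩
  rw [List.mem_flatMap]
  refine ⟨l, List.mem_range.mpr hl, ?_⟩
  rw [List.mem_flatMap]
  refine ⟨bb, by cases bb <;> simp, ?_⟩
  rw [List.mem_map]
  exact ⟨s', List.mem_range.mpr hs', rfl⟩

theorem mem_autU (h1 : V_LM) (M : ℕ) (x : AutC) (hn : x.1.1 < M)
    (ha : x.1.2.1.length ≤ M ∧ ∀ s ∈ x.1.2.1, s < M)
    (hb : x.1.2.2.length ≤ M ∧ ∀ s ∈ x.1.2.2, s < M)
    (ht : x.2.Nodup ∧ ∀ t ∈ x.2, t ∈ trU M) : x ∈ autU M := by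
  unfold autU
  rw [List.mem_flatMap]
  refine ⟨x.1.1, List.mem_range.mpr hn, ?_⟩
  rw [List.mem_flatMap]
  refine ⟨x.1.2.1, ?_, ?_⟩
  · rw [h1]
    exact ⟨ha.1, fun s hs => List.mem_range.mpr (ha.2 s hs)⟩
  rw [List.mem_flatMap]
  refine ⟨x.1.2.2, ?_, ?_⟩
  · rw [h1]
    exact ⟨hb.1, fun s hs => List.mem_range.mpr (hb.2 s hs)⟩
  rw [List.mem_map]
  refine ⟨x.2, ?_, rfl⟩
  rw [h1]
  refine ⟨?_, ht.2⟩
  exact (List.subperm_of_subset ht.1 ht.2).length_le

/-- The code of one atom. -/
theorem atom_code (h1 : V_LM) (h3 : V_AI) (h5 : V_SY) (a c L M st : ℕ)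
    (N : NFA ((Fin a ⊕ Fin c) × Bool) (Fin st))
    (hN : (∀ w ∈ N.accepts, ∀ l ∈ w, ∃ a, l.1 = Sum.inl a) ∨
      ∃ j, N.accepts = {[(Sum.inr j, true)]})
    (σ : Fin c → ℕ) (hσ : ∀ j, a ≤ σ j ∧ σ j < L) (hst : st < M) (hL : L ≤ M)
    (haL : a ≤ L) (hM : 2 < M) :
    ∃ x : AutC, x ∈ autU M ∧ WfAut L x ∧ SiAut a x ∧
      ∀ (n : ℕ) (E : GrC) (E0 : Fin n → Fin a → Fin n → Prop) (R : Fin c → Fin n → Fin n → Prop)
        (_ : ∀ (u : Fin n) (l : Fin a) (v : Fin n),
          (((u : ℕ), (l : ℕ)), (v : ℕ)) ∈ E ↔ E0 u l v)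
        (_ : ∀ (u : Fin n) (j : Fin c) (v : Fin n), (((u : ℕ), σ j), (v : ℕ)) ∈ E ↔ R j u v)
        (_ : ∀ e ∈ E, e.1.1 < n ∧ e.2 < n) (u v : Fin n),
        AtSat E x u v ↔ ∃ w ∈ N.accepts, Path (ext E0 R) u w v := by
  classical
  rcases hN with hN | ⟨j, hj⟩
  · let S : Finset ((Fin st × (Fin a × Bool)) × Fin st) :=
      Finset.univ.filter fun z => z.2 ∈ (rst N).step z.1.1 z.1.2
    let f : (Fin st × (Fin a × Bool)) × Fin st → TrC :=
      fun z => (((z.1.1 : ℕ), ((z.1.2.1 : ℕ), z.1.2.2)), (z.2 : ℕ))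
    let s1 : List ℕ := ((Finset.univ.filter fun s : Fin st => s ∈ N.start).toList).map Fin.val
    let s2 : List ℕ := ((Finset.univ.filter fun s : Fin st => s ∈ N.accept).toList).map Fin.val
    let x : AutC := ((st, (s1, s2)), (S.image f).toList)
    have hs1 : ∀ n, n ∈ s1 ↔ ∃ s ∈ N.start, (s : ℕ) = n := by
      intro n
      simp only [s1, List.mem_map, Finset.mem_toList, Finset.mem_filter, Finset.mem_univ,
        true_and]
    have hs2 : ∀ n, n ∈ s2 ↔ ∃ s ∈ N.accept, (s : ℕ) = n := by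
      intro n
      simp only [s2, List.mem_map, Finset.mem_toList, Finset.mem_filter, Finset.mem_univ,
        true_and]
    have hx2 : ∀ y : TrC, y ∈ x.2 ↔
        ∃ s l s', s' ∈ (rst N).step s l ∧ y = (((s : ℕ), ((l.1 : Fin a) : ℕ), l.2), (s' : ℕ)) := by
      intro y
      change y ∈ (S.image f).toList ↔ _
      rw [Finset.mem_toList, Finset.mem_image]
      constructor
      · rintro ⟨z, hz, rfl⟩
        exact ⟨z.1.1, z.1.2, z.2, (Finset.mem_filter.mp hz).2, rfl⟩
      · rintro ⟨s, l, s', hs, rfl⟩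
        exact ⟨((s, l), s'), Finset.mem_filter.mpr ⟨Finset.mem_univ _, hs⟩, rfl⟩
    have hcode : CodesAut (fun l : Fin a => (l : ℕ)) (rst N) x :=
      ⟨rfl, hs1, hs2, hx2⟩
    have hlt : ∀ t ∈ x.2, t.1.1 < st ∧ t.1.2.1 < a ∧ t.2 < st := by
      intro t ht
      obtain ⟨s, l, s', -, rfl⟩ := (hx2 t).mp ht
      exact ⟨s.2, l.1.2, s'.2⟩
    refine ⟨x, ?_, ⟨?_, ?_, ?_⟩, Or.inl fun t ht => (hlt t ht).2.1, ?_⟩
    · apply mem_autU h1
      · exact hst
      · refine ⟨?_, ?_⟩
        · have : s1.length ≤ st := by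
            simp only [s1, List.length_map, Finset.length_toList]
            refine (Finset.card_le_univ _).trans ?_
            rw [Fintype.card_fin]
          exact this.trans hst.le
        · intro s hs
          obtain ⟨y, -, rfl⟩ := (hs1 s).mp hs
          exact y.2.trans hst
      · refine ⟨?_, ?_⟩
        · have : s2.length ≤ st := by
            simp only [s2, List.length_map, Finset.length_toList]
            refine (Finset.card_le_univ _).trans ?_
            rw [Fintype.card_fin]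
          exact this.trans hst.le
        · intro s hs
          obtain ⟨y, -, rfl⟩ := (hs2 s).mp hs
          exact y.2.trans hst
      · refine ⟨Finset.nodup_toList _, ?_⟩
        intro t ht
        obtain ⟨e1, e2, e3⟩ := hlt t ht
        exact mem_trU M t.1.1 t.1.2.1 t.2 t.1.2.2 (e1.trans hst) (by omega) (e3.trans hst)
    · intro s hs
      obtain ⟨y, -, rfl⟩ := (hs1 s).mp hs
      exact y.2
    · intro s hs
      obtain ⟨y, -, rfl⟩ := (hs2 s).mp hs
      exact y.2
    · intro t ht
      obtain ⟨e1, e2, e3⟩ := hlt t ht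
      exact ⟨e1, e2.trans_le haL, e3⟩
    · intro n E E0 R hE hR hb u v
      rw [h3 (fun l : Fin a => (l : ℕ)) (rst N) x hcode E0 E hE hb u v]
      constructor
      · rintro ⟨w, hw, hp⟩
        exact ⟨w.map upl, (rst_accepts N w).mp hw, (path_upl E0 R w u v).mpr hp⟩
      · rintro ⟨w, hw, hp⟩
        obtain ⟨w', rfl⟩ := exists_upl w (hN w hw)
        exact ⟨w', (rst_accepts N w').mpr hw, (path_upl E0 R w' u v).mp hp⟩
  · have hσj := hσ j
    refine ⟨symC (σ j), ?_, ⟨?_, ?_, ?_⟩, Or.inr ⟨((0, (σ j, true)), 1), ?_, rfl⟩, ?_⟩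
    · apply mem_autU h1
      · exact hM
      · refine ⟨?_, ?_⟩
        · simp only [symC, List.length_cons, List.length_nil]
          omega
        · intro s hs
          simp only [symC, List.mem_singleton] at hs
          omega
      · refine ⟨?_, ?_⟩
        · simp only [symC, List.length_cons, List.length_nil]
          omega
        · intro s hs
          simp only [symC, List.mem_singleton] at hs
          omega
      · refine ⟨List.nodup_singleton _, ?_⟩
        intro t ht
        simp only [symC, List.mem_singleton] at ht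
        rw [ht]
        exact mem_trU M 0 (σ j) 1 true (by omega) (by omega) (by omega)
    · intro s hs
      simp only [symC, List.mem_singleton] at hs ⊢
      omega
    · intro s hs
      simp only [symC, List.mem_singleton] at hs ⊢
      omega
    · intro t ht
      simp only [symC, List.mem_singleton] at ht ⊢
      rw [ht]
      refine ⟨?_, ?_, ?_⟩
      · change 0 < 2
        norm_num
      · exact hσj.2
      · change 1 < 2
        norm_num
    · simp [symC]
    · intro n E E0 R hE hR hb u v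
      rw [h5, hR, hj]
      constructor
      · intro h
        refine ⟨[(Sum.inr j, true)], rfl, ?_⟩
        refine Path.cons u v v _ _ ?_ (Path.nil v)
        change (if true = true then R j u v else R j v u)
        rw [if_pos rfl]
        exact h
      · rintro ⟨w, hw, hp⟩
        have hw' : w = [(Sum.inr j, true)] := hw
        subst hw'
        cases hp with
        | cons _ t _ _ _ hs hp =>
          cases hp
          change (if true = true then R j u v else R j v u) at hs
          rwa [if_pos rfl] at hs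

theorem pf_CBC (h1 : V_LM) (h2 : V_RI) (h3 : V_AI) (h4 : V_CI) (h5 : V_SY) (h6 : V_TI) :
    V_BC := by
  intro a c k L M b hs hw σ hσ hM hL haL r hr out
  classical
  have hsz : b.size = c + b.n + b.m + ∑ i, b.st i := rfl
  have hst : ∀ i, b.st i ≤ ∑ i, b.st i := fun i =>
    Finset.single_le_sum (f := fun i => b.st i) (fun _ _ => Nat.zero_le _) (Finset.mem_univ i)
  have hn : ∀ i : Fin b.m, 0 < b.n ∧ 0 < b.m := fun i =>
    ⟨(Nat.zero_le _).trans_lt (b.src i).2, (Nat.zero_le _).trans_lt i.2⟩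
  have hat : ∀ i : Fin b.m, ∃ x : AutC, x ∈ autU M ∧ WfAut L x ∧ SiAut a x ∧
      ∀ (n : ℕ) (E : GrC) (E0 : Fin n → Fin a → Fin n → Prop) (R : Fin c → Fin n → Fin n → Prop)
        (_ : ∀ (u : Fin n) (l : Fin a) (v : Fin n),
          (((u : ℕ), (l : ℕ)), (v : ℕ)) ∈ E ↔ E0 u l v)
        (_ : ∀ (u : Fin n) (j : Fin c) (v : Fin n), (((u : ℕ), σ j), (v : ℕ)) ∈ E ↔ R j u v)
        (_ : ∀ e ∈ E, e.1.1 < n ∧ e.2 < n) (u v : Fin n),
        AtSat E x u v ↔ ∃ w ∈ (b.aut i).accepts, Path (ext E0 R) u w v := by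
    intro i
    have e1 := hst i
    obtain ⟨e2, e3⟩ := hn i
    exact atom_code h1 h3 h5 a c L M (b.st i) (b.aut i) (hs i) σ hσ (by omega) hL haL (by omega)
  choose x hx1 hx2 hx3 hx4 using hat
  let ats : List AtC := List.ofFn fun i : Fin b.m => (((b.src i : ℕ), (b.tgt i : ℕ)), x i)
  let q : CqC := ((b.n, List.ofFn fun i => (out i : ℕ)), ats)
  have hmem : ∀ t, t ∈ ats ↔ ∃ i : Fin b.m, t = (((b.src i : ℕ), (b.tgt i : ℕ)), x i) := by
    intro t
    rw [List.mem_ofFn]
    exact ⟨fun ⟨i, hi⟩ => ⟨i, hi.symm⟩, fun ⟨i, hi⟩ => ⟨i, hi.symm⟩⟩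
  refine ⟨q, ?_, ⟨?_, ?_, ?_, ?_⟩, ?_, ?_⟩
  · unfold cqU
    rw [List.mem_flatMap]
    refine ⟨b.n, List.mem_range.mpr (by omega), ?_⟩
    rw [List.mem_flatMap]
    refine ⟨List.ofFn fun i => (out i : ℕ), ?_, ?_⟩
    · rw [h1]
      refine ⟨by rw [List.length_ofFn]; exact hr, ?_⟩
      intro y hy
      rw [List.mem_ofFn] at hy
      obtain ⟨i, rfl⟩ := hy
      have := (out i).2
      exact List.mem_range.mpr (by omega)
    · rw [List.mem_map]
      refine ⟨ats, ?_, rfl⟩
      rw [h1]
      refine ⟨?_, ?_⟩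
      · rw [List.length_ofFn]
        omega
      · intro t ht
        obtain ⟨i, rfl⟩ := (hmem t).mp ht
        unfold atU
        have e1 := (b.src i).2
        have e2 := (b.tgt i).2
        rw [List.mem_flatMap]
        refine ⟨(b.src i : ℕ), List.mem_range.mpr (by omega), ?_⟩
        rw [List.mem_flatMap]
        refine ⟨(b.tgt i : ℕ), List.mem_range.mpr (by omega), ?_⟩
        rw [List.mem_map]
        exact ⟨x i, hx1 i, rfl⟩
  · exact List.length_ofFn
  · intro o ho
    change o ∈ List.ofFn (fun i => (out i : ℕ)) at ho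
    rw [List.mem_ofFn] at ho
    obtain ⟨i, rfl⟩ := ho
    exact (out i).2
  · intro t ht
    obtain ⟨i, rfl⟩ := (hmem t).mp ht
    exact ⟨(b.src i).2, (b.tgt i).2, hx2 i⟩
  · have hTI := h6 k b.n b.graph (ats.map Prod.fst) (by
      rintro u v ⟨huv, i, hi⟩
      have hi' : ((b.src i : ℕ), (b.tgt i : ℕ)) ∈ ats.map Prod.fst := by
        rw [List.mem_map]
        exact ⟨_, (hmem _).mpr ⟨i, rfl⟩, rfl⟩
      rcases hi with ⟨e1, e2⟩ | ⟨e1, e2⟩
      · left
        rw [← e1, ← e2]
        exact hi'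
      · right
        rw [← e1, ← e2]
        exact hi') (by
      intro e he
      rw [List.mem_map] at he
      obtain ⟨t, ht, rfl⟩ := he
      obtain ⟨i, rfl⟩ := (hmem t).mp ht
      refine ⟨b.src i, b.tgt i, rfl, ?_⟩
      by_cases h : b.src i = b.tgt i
      · exact Or.inl h
      · exact Or.inr ⟨h, i, Or.inl ⟨rfl, rfl⟩⟩)
    exact hTI.mpr hw
  · intro t ht
    obtain ⟨i, rfl⟩ := (hmem t).mp ht
    exact hx3 i
  · intro n E E0 R hE hR hb z
    constructor
    · rintro ⟨μ, hμ, hlen, hats, hout⟩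
      rw [h1] at hμ
      have hlen' : μ.length = b.n := hlen
      have hlt : ∀ i : Fin b.n, μ.getD (i : ℕ) 0 < n := by
        intro i
        have hi : (i : ℕ) < μ.length := by rw [hlen']; exact i.2
        rw [List.getD_eq_getElem _ _ hi]
        exact List.mem_range.mp (hμ.2 _ (List.getElem_mem hi))
      refine ⟨fun i => ⟨μ.getD (i : ℕ) 0, hlt i⟩, ?_, ?_⟩
      · intro i
        have e1 := hats _ ((hmem _).mpr ⟨i, rfl⟩)
        exact (hx4 i n E E0 R hE hR hb ⟨_, hlt (b.src i)⟩ ⟨_, hlt (b.tgt i)⟩).mp e1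
      · intro i
        apply Fin.ext
        change μ.getD (out i : ℕ) 0 = (z i : ℕ)
        have e1 : (List.ofFn fun i => (out i : ℕ)).map (fun i => μ.getD i 0) =
          List.ofFn fun i => (z i : ℕ) := hout
        rw [List.map_ofFn] at e1
        have e2 := List.ofFn_injective e1
        exact congrFun e2 i
    · rintro ⟨μ, hμ, hout⟩
      refine ⟨List.ofFn fun i => (μ i : ℕ), ?_, ?_, ?_, ?_⟩
      · rw [h1]
        refine ⟨?_, ?_⟩
        · rw [List.length_ofFn]
        · intro y hy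
          rw [List.mem_ofFn] at hy
          obtain ⟨i, rfl⟩ := hy
          exact List.mem_range.mpr (μ i).2
      · exact List.length_ofFn
      · have hget : ∀ i : Fin b.n, (List.ofFn fun i => (μ i : ℕ)).getD (i : ℕ) 0 = (μ i : ℕ) := by
          intro i
          have hi : (i : ℕ) < (List.ofFn fun i => (μ i : ℕ)).length := by
            rw [List.length_ofFn]; exact i.2
          rw [List.getD_eq_getElem _ _ hi, List.getElem_ofFn]
        intro t ht
        obtain ⟨i, rfl⟩ := (hmem t).mp ht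
        change AtSat E (x i) ((List.ofFn fun i => (μ i : ℕ)).getD (b.src i : ℕ) 0)
          ((List.ofFn fun i => (μ i : ℕ)).getD (b.tgt i : ℕ) 0)
        rw [hget, hget]
        exact (hx4 i n E E0 R hE hR hb (μ (b.src i)) (μ (b.tgt i))).mpr (hμ i)
      · change (List.ofFn fun i => (out i : ℕ)).map
          (fun j => (List.ofFn fun i => (μ i : ℕ)).getD j 0) = List.ofFn fun i => (z i : ℕ)
        rw [List.map_ofFn]
        congr 1
        funext i
        have hi : (out i : ℕ) < (List.ofFn fun i => (μ i : ℕ)).length := by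
          rw [List.length_ofFn]; exact (out i).2
        change (List.ofFn fun i => (μ i : ℕ)).getD (out i : ℕ) 0 = (z i : ℕ)
        rw [List.getD_eq_getElem _ _ hi, List.getElem_ofFn]
        exact congrArg Fin.val (hout i)

end Pool.Agent.H60.SW
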