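import Pool.Agent.H76.SW.CT

/-!
Module CFL: flattening of nested queries.
-/

namespace Pool.Agent.H60.SW

open Relation Pool.Agent.H76.SW

theorem foldl_snd (n : ℕ) (defs : List UqC) : ∀ (E : GrC) (a : ℕ),
    (defs.foldl (fun (x : GrC × ℕ) Q => (addRel n x.1 x.2 Q, x.2 + 1)) (E, a)).2 =
      a + defs.length := by
  induction defs with
  | nil => intro E a; rfl
  | cons Q defs ih =>
    intro E a
    rw [List.foldl_cons, ih, List.length_cons]
    omega

theorem progE_snoc (n a : ℕ) (E : GrC) (defs : List UqC) (Q : UqC) :
    progE n a E (defs ++ [Q]) = addRel n (progE n a E defs) (a + defs.length) Q := by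
  unfold progE
  rw [List.foldl_append, List.foldl_cons, List.foldl_nil, foldl_snd]

theorem mem_addRel (n : ℕ) (E : GrC) (l : ℕ) (Q : UqC) (hE : ∀ e ∈ E, e.1.2 < l)
    (u v : Fin n) : (((u : ℕ), l), (v : ℕ)) ∈ addRel n E l Q ↔ UqSat n E Q [(u : ℕ), (v : ℕ)] := by
  classical
  unfold addRel
  rw [List.mem_append, List.mem_flatMap]
  constructor
  · rintro (h | ⟨u', -, h⟩)
    · exact absurd (hE _ h) (lt_irrefl l)
    · rw [List.mem_flatMap] at h
      obtain ⟨v', -, h⟩ := h
      split_ifs at h with hs
      · rw [List.mem_singleton] at h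
        have e1 : (u : ℕ) = u' := congrArg (fun e : (ℕ × ℕ) × ℕ => e.1.1) h
        have e2 : (v : ℕ) = v' := congrArg (fun e : (ℕ × ℕ) × ℕ => e.2) h
        rw [e1, e2]
        exact hs
      · cases h
  · intro h
    refine Or.inr ⟨(u : ℕ), List.mem_range.mpr u.2, ?_⟩
    rw [List.mem_flatMap]
    refine ⟨(v : ℕ), List.mem_range.mpr v.2, ?_⟩
    rw [if_pos h]
    exact List.mem_singleton_self _

/-- The statement for one query. -/
def FL (a k M : ℕ) (ω : RQ (Fin a)) : Prop :=
  ∀ pre : List UqC, a + pre.length + ω.size + 2 ≤ M →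
    ∃ new : List UqC, 0 < new.length ∧ new.length ≤ ω.size ∧ (∀ Q ∈ new, Q ∈ uqU M) ∧
      (∀ i < new.length, WfUq (a + pre.length + i) 2 k (new.getD i [])) ∧
      (∀ Q ∈ new, SiUq a Q) ∧
      ∀ (n : ℕ) (E : GrC), GrOK n a E → ∀ u v : Fin n,
        (((u : ℕ), a + pre.length + new.length - 1), (v : ℕ)) ∈ progE n a E (pre ++ new) ↔
          ω.Sat (toRel n a E) u v

/-- The statement for a family of queries. -/
theorem family (h2 : V_PA) (a k M : ℕ) : ∀ (c : ℕ) (sub : Fin c → RQ (Fin a))
    (_ : ∀ j, FL a k M (sub j)) (pre : List UqC),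
    a + pre.length + (∑ j, (sub j).size) + 2 ≤ M →
    ∃ (new : List UqC) (σ : Fin c → ℕ), new.length ≤ (∑ j, (sub j).size) ∧
      (∀ Q ∈ new, Q ∈ uqU M) ∧
      (∀ i < new.length, WfUq (a + pre.length + i) 2 k (new.getD i [])) ∧
      (∀ Q ∈ new, SiUq a Q) ∧
      (∀ j, a + pre.length ≤ σ j ∧ σ j < a + pre.length + new.length) ∧
      ∀ (n : ℕ) (E : GrC), GrOK n a E → ∀ (j : Fin c) (u v : Fin n),
        (((u : ℕ), σ j), (v : ℕ)) ∈ progE n a E (pre ++ new) ↔
          (sub j).Sat (toRel n a E) u v := by
  intro c
  induction c with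
  | zero =>
    intro sub _ pre _
    refine ⟨[], fun j => j.elim0, by simp, by simp, by simp, by simp, fun j => j.elim0, ?_⟩
    intro n E _ j
    exact j.elim0
  | succ c ih =>
    intro sub hsub pre hM
    rw [Fin.sum_univ_castSucc] at hM ⊢
    obtain ⟨new1, σ1, g1, g2, g3, g4, g5, g6⟩ := ih (fun j => sub j.castSucc)
      (fun j => hsub j.castSucc) pre (by omega)
    obtain ⟨new2, f0, f1, f2, f3, f4, f5⟩ := hsub (Fin.last c) (pre ++ new1) (by
      rw [List.length_append]
      omega)
    have hlen : (pre ++ new1).length = pre.length + new1.length := List.length_append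
    refine ⟨new1 ++ new2, Fin.snoc (α := fun _ => ℕ) σ1
      (a + (pre ++ new1).length + new2.length - 1), ?_, ?_, ?_, ?_, ?_, ?_⟩
    · rw [List.length_append]
      omega
    · intro Q hQ
      rcases List.mem_append.mp hQ with h | h
      · exact g2 Q h
      · exact f2 Q h
    · intro i hi
      rw [List.length_append] at hi
      rcases Nat.lt_or_ge i new1.length with h | h
      · rw [List.getD_append _ _ _ _ h]
        exact g3 i h
      · rw [List.getD_append_right _ _ _ _ h]
        have e1 := f3 (i - new1.length) (by omega)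
        rw [hlen] at e1
        have e2 : a + (pre.length + new1.length) + (i - new1.length) = a + pre.length + i := by
          omega
        rw [e2] at e1
        exact e1
    · intro Q hQ
      rcases List.mem_append.mp hQ with h | h
      · exact g4 Q h
      · exact f4 Q h
    · intro j
      have hl2 : (new1 ++ new2).length = new1.length + new2.length := List.length_append
      refine Fin.lastCases ?_ ?_ j
      · rw [Fin.snoc_last]
        omega
      · intro i
        rw [Fin.snoc_castSucc]
        have := g5 i
        omega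
    · intro n E hE j u v
      rw [← List.append_assoc]
      refine Fin.lastCases ?_ ?_ j
      · rw [Fin.snoc_last]
        exact f5 n E hE u v
      · intro i
        rw [Fin.snoc_castSucc]
        have e1 := g5 i
        rw [h2 n a E (pre ++ new1) new2 _ (by
          change σ1 i < _
          rw [hlen]
          omega)]
        exact g6 n E hE i u v

theorem mem_uqU (h6 : V_LM) (M : ℕ) (Q : UqC) (h : Q.length ≤ M) (hq : ∀ q ∈ Q, q ∈ cqU M) :
    Q ∈ uqU M := by
  unfold uqU
  rw [h6]
  exact ⟨h, hq⟩

/-- Adding the last definition. -/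
theorem last_step (h3 : V_PB) (a k M s : ℕ) (pre new : List UqC) (Q : UqC)
    (hlen : new.length + 1 ≤ s)
    (g2 : ∀ Q ∈ new, Q ∈ uqU M)
    (g3 : ∀ i < new.length, WfUq (a + pre.length + i) 2 k (new.getD i []))
    (g4 : ∀ Q ∈ new, SiUq a Q)
    (hQ1 : Q ∈ uqU M) (hQ2 : WfUq (a + pre.length + new.length) 2 k Q) (hQ3 : SiUq a Q)
    (ω : (n : ℕ) → (E : GrC) → Fin n → Fin n → Prop)
    (hsem : ∀ (n : ℕ) (E : GrC), GrOK n a E → ∀ u v : Fin n,
      UqSat n (progE n a E (pre ++ new)) Q [(u : ℕ), (v : ℕ)] ↔ ω n E u v) :
    ∃ new' : List UqC, 0 < new'.length ∧ new'.length ≤ s ∧ (∀ Q ∈ new', Q ∈ uqU M) ∧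
      (∀ i < new'.length, WfUq (a + pre.length + i) 2 k (new'.getD i [])) ∧
      (∀ Q ∈ new', SiUq a Q) ∧
      ∀ (n : ℕ) (E : GrC), GrOK n a E → ∀ u v : Fin n,
        (((u : ℕ), a + pre.length + new'.length - 1), (v : ℕ)) ∈ progE n a E (pre ++ new') ↔
          ω n E u v := by
  have hl : (new ++ [Q]).length = new.length + 1 := by
    rw [List.length_append, List.length_singleton]
  refine ⟨new ++ [Q], by omega, by omega, ?_, ?_, ?_, ?_⟩
  · intro Q' hQ'
    rcases List.mem_append.mp hQ' with h | h
    · exact g2 Q' h
    · rw [List.mem_singleton.mp h]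
      exact hQ1
  · intro i hi
    rcases Nat.lt_or_ge i new.length with h | h
    · rw [List.getD_append _ _ _ _ h]
      exact g3 i h
    · have e1 : i = new.length := by omega
      rw [List.getD_append_right _ _ _ _ h, e1, Nat.sub_self]
      exact hQ2
  · intro Q' hQ'
    rcases List.mem_append.mp hQ' with h | h
    · exact g4 Q' h
    · rw [List.mem_singleton.mp h]
      exact hQ3
  · intro n E hE u v
    have e1 : a + pre.length + (new ++ [Q]).length - 1 = a + (pre ++ new).length := by
      rw [hl, List.length_append]
      omega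
    rw [e1, ← List.append_assoc, progE_snoc]
    rw [mem_addRel n _ _ Q (fun e he => (h3 n a E hE (pre ++ new) e he).2.2) u v]
    exact hsem n E hE u v

theorem twC_two (h6 : V_LM) (k : ℕ) (hk : 1 ≤ k) : TwC k 2 [(0, 1)] := by
  refine ⟨[(0, [0, 1])], ?_, ?_, ?_, ?_⟩
  · rw [h6]
    refine ⟨by simp, ?_⟩
    intro x hx
    rw [List.mem_singleton] at hx
    subst hx
    rw [List.mem_flatMap]
    refine ⟨0, List.mem_range.mpr (by norm_num), ?_⟩
    rw [List.mem_map]
    refine ⟨[0, 1], ?_, rfl⟩
    rw [h6]
    refine ⟨by simpa using hk, ?_⟩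
    intro x hx
    rw [List.mem_range]
    simp only [List.mem_cons, List.not_mem_nil, or_false] at hx
    omega
  · intro v hv
    rw [List.mem_range] at hv
    refine ⟨_, List.mem_singleton_self _, ?_⟩
    simp only [List.mem_cons, List.not_mem_nil, or_false]
    omega
  · intro e he
    rw [List.mem_singleton] at he
    subst he
    refine ⟨_, List.mem_singleton_self _, ?_, ?_⟩
    · simp
    · simp
  · intro v hv
    rw [List.mem_range] at hv
    refine ⟨0, by simp, ?_, ?_⟩
    · simp only [List.getD_cons_zero, List.mem_cons, List.not_mem_nil, or_false]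
      omega
    · intro x hx _
      left
      simpa using hx

theorem pf_CFL (h1 : V_BC) (h2 : V_PA) (h3 : V_PB) (h4 : V_SY) (h5 : V_TI) (h6 : V_LM)
    (h7 : V_AI) (h8 : V_CI) : V_FL := by
  intro a k M hk ω
  change ω.Width k → ω.Simple → FL a k M ω
  induction ω with
  | cq c b sub p q ih =>
    intro hw hs
    obtain ⟨hw1, hw2⟩ : TreeWidthLE b.graph k ∧ ∀ j, (sub j).Width k := hw
    obtain ⟨hs1, hs2⟩ : b.Simple ∧ ∀ j, (sub j).Simple := hs
    intro pre hM
    have hsz : (RQ.cq c b sub p q).size = 1 + b.size + ∑ j, (sub j).size := rfl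
    have hbs : b.size = c + b.n + b.m + ∑ i, b.st i := rfl
    rw [hsz] at hM
    obtain ⟨new, σ, g1, g2, g3, g4, g5, g6⟩ := family h2 a k M c sub
      (fun j => ih j (hw2 j) (hs2 j)) pre (by omega)
    obtain ⟨q0, hq0, hwf, hsi, hsem⟩ := h1 a c k (a + pre.length + new.length) M b hs1 hw1 σ
      (fun j => ⟨by have := (g5 j).1; omega, (g5 j).2⟩) (by omega) (by omega) (by omega) 2
      (by omega) ![p, q]
    refine last_step h3 a k M _ pre new [q0] (by rw [hsz]; omega) g2 g3 g4 ?_ ?_ ?_
      (fun n E u v => (RQ.cq c b sub p q).Sat (toRel n a E) u v) ?_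
    · apply mem_uqU h6
      · rw [List.length_singleton]
        omega
      · intro q' hq'
        rw [List.mem_singleton.mp hq']
        exact hq0
    · intro q' hq'
      rw [List.mem_singleton.mp hq']
      exact hwf
    · intro q' hq' t ht
      rw [List.mem_singleton.mp hq'] at ht
      exact hsi t ht
    · intro n E hE u v
      have hUq : UqSat n (progE n a E (pre ++ new)) [q0] [(u : ℕ), (v : ℕ)] ↔
          CqSat n (progE n a E (pre ++ new)) q0 [(u : ℕ), (v : ℕ)] := by
        unfold UqSat
        constructor
        · rintro ⟨q', hq', h⟩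
          rw [List.mem_singleton.mp hq'] at h
          exact h
        · intro h
          exact ⟨q0, List.mem_singleton_self _, h⟩
      have hz : [(u : ℕ), (v : ℕ)] = List.ofFn fun i : Fin 2 => ((![u, v] i : Fin n) : ℕ) := by
        simp [List.ofFn_succ]
      rw [hUq, hz, hsem n (progE n a E (pre ++ new)) (toRel n a E)
        (fun j => (sub j).Sat (toRel n a E)) ?_ ?_ ?_ ![u, v]]
      · rw [RQ.Sat]
        constructor
        · rintro ⟨μ, hμ, ho⟩
          exact ⟨μ, hμ, ho 0, ho 1⟩
        · rintro ⟨μ, hμ, ho1, ho2⟩
          refine ⟨μ, hμ, ?_⟩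
          rw [Fin.forall_fin_two]
          exact ⟨ho1, ho2⟩
      · intro u l v
        have e1 := h2 n a E [] (pre ++ new) (((u : ℕ), (l : ℕ)), (v : ℕ)) (by
          change (l : ℕ) < a + 0
          have := l.2
          omega)
        rw [List.nil_append] at e1
        rw [e1]
        exact Iff.rfl
      · intro u j v
        exact g6 n E hE j u v
      · intro e he
        have := h3 n a E hE (pre ++ new) e he
        exact ⟨this.1, this.2.1⟩
  | union c sub ih =>
    intro hw hs
    have hw2 : ∀ j, (sub j).Width k := hw
    have hs2 : ∀ j, (sub j).Simple := hs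
    intro pre hM
    have hsz : (RQ.union c sub).size = 1 + c + ∑ j, (sub j).size := rfl
    rw [hsz] at hM
    obtain ⟨new, σ, g1, g2, g3, g4, g5, g6⟩ := family h2 a k M c sub
      (fun j => ih j (hw2 j) (hs2 j)) pre (by omega)
    let q : Fin c → CqC := fun j => ((2, [0, 1]), [((0, 1), symC (σ j))])
    let Q : UqC := List.ofFn q
    have hmem : ∀ x, x ∈ Q ↔ ∃ j, x = q j := by
      intro x
      rw [List.mem_ofFn]
      exact ⟨fun ⟨i, hi⟩ => ⟨i, hi.symm⟩, fun ⟨i, hi⟩ => ⟨i, hi.symm⟩⟩
    refine last_step h3 a k M _ pre new Q (by rw [hsz]; omega) g2 g3 g4 ?_ ?_ ?_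
      (fun n E u v => (RQ.union c sub).Sat (toRel n a E) u v) ?_
    · apply mem_uqU h6
      · rw [List.length_ofFn]
        omega
      · intro x hx
        obtain ⟨j, rfl⟩ := (hmem x).mp hx
        have hσ := g5 j
        have hc : 0 < c := (Nat.zero_le _).trans_lt j.2
        unfold cqU
        rw [List.mem_flatMap]
        refine ⟨2, List.mem_range.mpr (by omega), ?_⟩
        rw [List.mem_flatMap]
        refine ⟨[0, 1], ?_, ?_⟩
        · rw [h6]
          refine ⟨by simp only [List.length_cons, List.length_nil]; omega, ?_⟩
          intro y hy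
          rw [List.mem_range]
          simp only [List.mem_cons, List.not_mem_nil, or_false] at hy
          omega
        · rw [List.mem_map]
          refine ⟨[((0, 1), symC (σ j))], ?_, rfl⟩
          rw [h6]
          refine ⟨by simp only [List.length_cons, List.length_nil]; omega, ?_⟩
          intro y hy
          rw [List.mem_singleton] at hy
          subst hy
          unfold atU
          rw [List.mem_flatMap]
          refine ⟨0, List.mem_range.mpr (by omega), ?_⟩
          rw [List.mem_flatMap]
          refine ⟨1, List.mem_range.mpr (by omega), ?_⟩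
          rw [List.mem_map]
          refine ⟨symC (σ j), ?_, rfl⟩
          unfold autU
          rw [List.mem_flatMap]
          refine ⟨2, List.mem_range.mpr (by omega), ?_⟩
          rw [List.mem_flatMap]
          refine ⟨[0], ?_, ?_⟩
          · rw [h6]
            refine ⟨by simp only [List.length_cons, List.length_nil]; omega, ?_⟩
            intro y hy
            rw [List.mem_singleton] at hy
            rw [List.mem_range]
            omega
          rw [List.mem_flatMap]
          refine ⟨[1], ?_, ?_⟩
          · rw [h6]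
            refine ⟨by simp only [List.length_cons, List.length_nil]; omega, ?_⟩
            intro y hy
            rw [List.mem_singleton] at hy
            rw [List.mem_range]
            omega
          rw [List.mem_map]
          refine ⟨[((0, (σ j, true)), 1)], ?_, rfl⟩
          have htr : ((0, (σ j, true)), 1) ∈ trU M := by
            unfold trU
            rw [List.mem_flatMap]
            refine ⟨0, List.mem_range.mpr (by omega), ?_⟩
            rw [List.mem_flatMap]
            refine ⟨σ j, List.mem_range.mpr (by omega), ?_⟩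
            rw [List.mem_flatMap]
            refine ⟨true, by simp, ?_⟩
            rw [List.mem_map]
            exact ⟨1, List.mem_range.mpr (by omega), rfl⟩
          rw [h6]
          refine ⟨?_, ?_⟩
          · rw [List.length_singleton]
            exact List.length_pos_of_mem htr
          · intro y hy
            rw [List.mem_singleton.mp hy]
            exact htr
    · intro x hx
      obtain ⟨j, rfl⟩ := (hmem x).mp hx
      have hσ := g5 j
      refine ⟨rfl, ?_, ?_, ?_⟩
      · intro o ho
        change o ∈ [0, 1] at ho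
        change o < 2
        simp only [List.mem_cons, List.not_mem_nil, or_false] at ho
        omega
      · intro t ht
        change t ∈ [((0, 1), symC (σ j))] at ht
        rw [List.mem_singleton] at ht
        subst ht
        refine ⟨?_, ?_, ?_, ?_, ?_⟩
        · change 0 < 2
          norm_num
        · change 1 < 2
          norm_num
        · intro s hs
          simp only [symC, List.mem_singleton] at hs ⊢
          omega
        · intro s hs
          simp only [symC, List.mem_singleton] at hs ⊢
          omega
        · intro t ht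
          simp only [symC, List.mem_singleton] at ht ⊢
          rw [ht]
          refine ⟨?_, ?_, ?_⟩
          · change 0 < 2
            norm_num
          · exact hσ.2
          · change 1 < 2
            norm_num
      · exact twC_two h6 k hk
    · intro x hx t ht
      obtain ⟨j, rfl⟩ := (hmem x).mp hx
      change t ∈ [((0, 1), symC (σ j))] at ht
      rw [List.mem_singleton] at ht
      subst ht
      exact Or.inr ⟨((0, (σ j, true)), 1), by simp [symC], rfl⟩
    · intro n E hE u v
      have hcq : ∀ j, CqSat n (progE n a E (pre ++ new)) (q j) [(u : ℕ), (v : ℕ)] ↔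
          (((u : ℕ), σ j), (v : ℕ)) ∈ progE n a E (pre ++ new) := by
        intro j
        rw [← h4]
        constructor
        · rintro ⟨μ, -, -, hat, ho⟩
          have e1 := hat ((0, 1), symC (σ j)) (List.mem_singleton_self _)
          have e2 : [μ.getD 0 0, μ.getD 1 0] = [(u : ℕ), (v : ℕ)] := ho
          have e3 : μ.getD 0 0 = (u : ℕ) := (List.cons.inj e2).1
          have e4 : μ.getD 1 0 = (v : ℕ) := (List.cons.inj (List.cons.inj e2).2).1
          have e5 : AtSat (progE n a E (pre ++ new)) (symC (σ j)) (μ.getD 0 0) (μ.getD 1 0) := e1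
          rw [e3, e4] at e5
          exact e5
        · intro h
          refine ⟨[(u : ℕ), (v : ℕ)], ?_, rfl, ?_, rfl⟩
          · rw [h6]
            refine ⟨le_refl 2, ?_⟩
            intro y hy
            rw [List.mem_range]
            simp only [List.mem_cons, List.not_mem_nil, or_false] at hy
            rcases hy with h | h
            · rw [h]; exact u.2
            · rw [h]; exact v.2
          · intro t ht
            change t ∈ [((0, 1), symC (σ j))] at ht
            rw [List.mem_singleton] at ht
            subst ht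
            exact h
      have hUq : UqSat n (progE n a E (pre ++ new)) Q [(u : ℕ), (v : ℕ)] ↔
          ∃ j, (((u : ℕ), σ j), (v : ℕ)) ∈ progE n a E (pre ++ new) := by
        constructor
        · rintro ⟨x, hx, h⟩
          obtain ⟨j, rfl⟩ := (hmem x).mp hx
          exact ⟨j, (hcq j).mp h⟩
        · rintro ⟨j, h⟩
          exact ⟨q j, (hmem _).mpr ⟨j, rfl⟩, (hcq j).mpr h⟩
      rw [hUq, RQ.Sat]
      exact exists_congr fun j => g6 n E hE j u v

end Pool.Agent.H60.SW
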