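import Pool.Agent.H76.SW.CT

/-!
Module CTI: coded tree decompositions.
-/

namespace Pool.Agent.H60.SW

open Relation Pool.Agent.H76.SW

/-- Number the elements of a finite type in the order of the values of a function. -/
theorem exists_order {α : Type} [Fintype α] (f : α → ℕ) :
    ∃ e : α ≃ Fin (Fintype.card α), ∀ x y, f x < f y → e x < e y := by
  let e0 := Fintype.equivFin α
  let g : Fin (Fintype.card α) → ℕ := fun i => f (e0.symm i)
  let σ := Tuple.sort g
  have hm : Monotone (g ∘ σ) := Tuple.monotone_sort g
  refine ⟨e0.trans σ.symm, ?_⟩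
  intro x y h
  by_contra hc
  rw [not_lt] at hc
  have h2 := hm hc
  simp only [Function.comp, g, Equiv.trans_apply, Equiv.apply_symm_apply,
    Equiv.symm_apply_apply] at h2
  exact absurd h (not_lt.mpr h2)

theorem pf_CTI (h1 : V_LM) (h2 : U_d1_root) (h3 : U_d2_normal) (h4 : U_d3_unroot) : V_TI := by
  intro k n G adj ha1 ha2
  classical
  constructor
  · rintro ⟨D, hD, hcov, hedge, hconn⟩
    rw [h1] at hD
    obtain ⟨-, hD⟩ := hD
    apply h4
    have hbag : ∀ x : Fin D.length, (D.get x).2.length ≤ k + 1 := by
      intro x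
      have := hD (D.get x) (List.get_mem D x)
      rw [List.mem_flatMap] at this
      obtain ⟨p, -, hp⟩ := this
      rw [List.mem_map] at hp
      obtain ⟨B, hB, he⟩ := hp
      rw [h1] at hB
      rw [← he]
      exact hB.1
    have hget : ∀ x : Fin D.length, D.getD (x : ℕ) (0, []) = D.get x := by
      intro x
      rw [List.getD_eq_getElem _ _ x.2]
      rfl
    refine ⟨{
      N := Fin D.length
      fin := inferInstance
      par := fun x => if h : (D.get x).1 < (x : ℕ) then some ⟨(D.get x).1, h.trans x.2⟩ else none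
      rk := fun x => (x : ℕ)
      hrk := ?_
      B := fun x => Finset.univ.filter fun v : Fin n => (v : ℕ) ∈ (D.get x).2
      cov := ?_
      edge := ?_
      conn := ?_
      card := ?_ }⟩
    · intro x y hxy
      split_ifs at hxy with h
      have := Option.some.inj hxy
      rw [← this]
      exact h
    · intro v
      obtain ⟨d, hd, hv⟩ := hcov (v : ℕ) (List.mem_range.mpr v.2)
      obtain ⟨x, hx⟩ := List.get_of_mem hd
      refine ⟨x, ?_⟩
      rw [Finset.mem_filter]
      exact ⟨Finset.mem_univ _, by rw [hx]; exact hv⟩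
    · intro u v huv
      have : ∃ d ∈ D, (u : ℕ) ∈ d.2 ∧ (v : ℕ) ∈ d.2 := by
        rcases ha1 u v huv with h | h
        · exact hedge _ h
        · obtain ⟨d, hd, h5, h6⟩ := hedge _ h
          exact ⟨d, hd, h6, h5⟩
      obtain ⟨d, hd, h5, h6⟩ := this
      obtain ⟨x, hx⟩ := List.get_of_mem hd
      refine ⟨x, ?_, ?_⟩
      · rw [Finset.mem_filter]
        exact ⟨Finset.mem_univ _, by rw [hx]; exact h5⟩
      · rw [Finset.mem_filter]
        exact ⟨Finset.mem_univ _, by rw [hx]; exact h6⟩
    · intro v
      obtain ⟨t, ht, hvt, hx⟩ := hconn (v : ℕ) (List.mem_range.mpr v.2)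
      have ht' := List.mem_range.mp ht
      refine ⟨⟨t, ht'⟩, ?_, ?_⟩
      · rw [Finset.mem_filter]
        refine ⟨Finset.mem_univ _, ?_⟩
        have := hget ⟨t, ht'⟩
        rw [← this]
        exact hvt
      · intro x hv
        rw [Finset.mem_filter] at hv
        have h5 := hx (x : ℕ) (List.mem_range.mpr x.2) (by rw [hget x]; exact hv.2)
        rcases h5 with h5 | ⟨h5, h6⟩
        · exact Or.inl (Fin.ext h5)
        · rw [hget x] at h5
          refine Or.inr ⟨⟨(D.get x).1, h5.trans x.2⟩, dif_pos h5, ?_⟩
          rw [Finset.mem_filter]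
          refine ⟨Finset.mem_univ _, ?_⟩
          have := hget ⟨(D.get x).1, h5.trans x.2⟩
          rw [← this]
          rw [hget x] at h6
          exact h6
    · intro x
      have h5 : ((Finset.univ.filter fun v : Fin n => (v : ℕ) ∈ (D.get x).2).image
          (fun v : Fin n => (v : ℕ))) ⊆ (D.get x).2.toFinset := by
        intro y hy
        rw [Finset.mem_image] at hy
        obtain ⟨v, hv, rfl⟩ := hy
        rw [Finset.mem_filter] at hv
        exact List.mem_toFinset.mpr hv.2
      have h6 := Finset.card_le_card h5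
      rw [Finset.card_image_of_injective _ Fin.val_injective] at h6
      exact (h6.trans (List.toFinset_card_le _)).trans (hbag x)
  · intro htw
    obtain ⟨D, hDn⟩ := h3 G k (h2 G k htw)
    haveI := D.fin
    choose t ht1 ht2 using D.conn
    let α := {x : D.N // (D.B x).Nonempty}
    obtain ⟨e, he⟩ := exists_order (fun x : α => D.rk x.1)
    have hm : Fintype.card α ≤ n := by
      have hsurj : Function.Surjective (fun v : Fin n => (⟨t v, ⟨v, ht1 v⟩⟩ : α)) := by
        rintro ⟨x, hx⟩
        have : ∃ v, v ∈ D.B x ∧ t v = x := by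
          rcases hp : D.par x with _ | y
          · obtain ⟨v, hv⟩ := hx
            refine ⟨v, hv, ?_⟩
            rcases ht2 v x hv with h | ⟨y, hy, -⟩
            · exact h.symm
            · rw [hp] at hy
              cases hy
          · obtain ⟨v, hv, hvy⟩ := Finset.not_subset.mp (hDn x y hp)
            refine ⟨v, hv, ?_⟩
            rcases ht2 v x hv with h | ⟨y', hy, hvy'⟩
            · exact h.symm
            · rw [hp] at hy
              rw [← Option.some.inj hy] at hvy'
              exact absurd hvy' hvy
        obtain ⟨v, -, hv⟩ := this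
        exact ⟨v, Subtype.ext hv⟩
      have := Fintype.card_le_of_surjective _ hsurj
      rwa [Fintype.card_fin] at this
    let pn : D.N → ℕ := fun y => if h : (D.B y).Nonempty then (e ⟨y, h⟩ : ℕ) else n + 1
    let nd : Fin (Fintype.card α) → ℕ × List ℕ := fun j =>
      (((D.par (e.symm j).1).map pn).getD (n + 1), (D.B (e.symm j).1).toList.map Fin.val)
    let L := List.ofFn nd
    have hL : L.length = Fintype.card α := List.length_ofFn
    have hgetD : ∀ x : α, L.getD (e x : ℕ) (0, []) =
        (((D.par x.1).map pn).getD (n + 1), (D.B x.1).toList.map Fin.val) := by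
      intro x
      have hlt : (e x : ℕ) < L.length := by rw [hL]; exact (e x).2
      rw [List.getD_eq_getElem _ _ hlt]
      simp only [L, List.getElem_ofFn, nd, Fin.eta, Equiv.symm_apply_apply]
    have hmemL : ∀ x : α, (((D.par x.1).map pn).getD (n + 1),
        (D.B x.1).toList.map Fin.val) ∈ L := by
      intro x
      rw [List.mem_ofFn]
      refine ⟨e x, ?_⟩
      simp only [nd, Equiv.symm_apply_apply]
    have hbag : ∀ (x : D.N) (v : Fin n), (v : ℕ) ∈ (D.B x).toList.map Fin.val ↔ v ∈ D.B x := by
      intro x v
      rw [List.mem_map]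
      constructor
      · rintro ⟨w, hw, hwv⟩
        rw [← Fin.ext hwv]
        exact Finset.mem_toList.mp hw
      · intro hv
        exact ⟨v, Finset.mem_toList.mpr hv, rfl⟩
    refine ⟨L, ?_, ?_, ?_, ?_⟩
    · rw [h1]
      refine ⟨by omega, ?_⟩
      intro d hd
      rw [List.mem_ofFn] at hd
      obtain ⟨j, rfl⟩ := hd
      rw [List.mem_flatMap]
      refine ⟨(nd j).1, ?_, ?_⟩
      · rw [List.mem_range]
        have hpn : ∀ y, pn y < n + 2 := by
          intro y
          by_cases h : (D.B y).Nonempty
          · have e1 : pn y = (e ⟨y, h⟩ : ℕ) := dif_pos h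
            have e2 := (e ⟨y, h⟩).2
            omega
          · have e1 : pn y = n + 1 := dif_neg h
            omega
        change ((D.par (e.symm j).1).map pn).getD (n + 1) < n + 2
        rcases D.par (e.symm j).1 with _ | y
        · simp
        · simpa using hpn y
      · rw [List.mem_map]
        refine ⟨(nd j).2, ?_, rfl⟩
        rw [h1]
        refine ⟨?_, ?_⟩
        · change ((D.B (e.symm j).1).toList.map Fin.val).length ≤ k + 1
          rw [List.length_map, Finset.length_toList]
          exact D.card _
        · intro y hy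
          change y ∈ (D.B (e.symm j).1).toList.map Fin.val at hy
          rw [List.mem_map] at hy
          obtain ⟨v, -, rfl⟩ := hy
          exact List.mem_range.mpr v.2
    · intro v hv
      have hv' := List.mem_range.mp hv
      obtain ⟨x, hx⟩ := D.cov ⟨v, hv'⟩
      exact ⟨_, hmemL ⟨x, ⟨_, hx⟩⟩, (hbag x ⟨v, hv'⟩).mpr hx⟩
    · intro ed hed
      obtain ⟨u, v, rfl, huv⟩ := ha2 ed hed
      have : ∃ x, u ∈ D.B x ∧ v ∈ D.B x := by
        rcases huv with h | h
        · obtain ⟨x, hx⟩ := D.cov u
          exact ⟨x, hx, h ▸ hx⟩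
        · exact D.edge u v h
      obtain ⟨x, hu, hv⟩ := this
      exact ⟨_, hmemL ⟨x, ⟨_, hu⟩⟩, (hbag x u).mpr hu, (hbag x v).mpr hv⟩
    · intro v hv
      have hv' := List.mem_range.mp hv
      let v' : Fin n := ⟨v, hv'⟩
      refine ⟨(e ⟨t v', ⟨v', ht1 v'⟩⟩ : ℕ), ?_, ?_, ?_⟩
      · rw [List.mem_range, hL]
        exact (e _).2
      · rw [hgetD]
        exact (hbag _ v').mpr (ht1 v')
      · intro x hx hvx
        rw [List.mem_range, hL] at hx
        obtain ⟨y, hy⟩ : ∃ y : α, (e y : ℕ) = x := ⟨e.symm ⟨x, hx⟩, by simp⟩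
        rw [← hy, hgetD] at hvx
        have hvy : v' ∈ D.B y.1 := (hbag _ v').mp hvx
        rcases ht2 v' y.1 hvy with h | ⟨z, hz, hvz⟩
        · left
          rw [← hy]
          congr 1
          congr 1
          exact Subtype.ext h
        · right
          have hzn : (D.B z).Nonempty := ⟨v', hvz⟩
          have hpz : pn z = (e ⟨z, hzn⟩ : ℕ) := dif_pos hzn
          have e1 : (((D.par y.1).map pn).getD (n + 1)) = (e ⟨z, hzn⟩ : ℕ) := by
            rw [hz]
            simp [hpz]
          rw [← hy, hgetD]
          refine ⟨?_, ?_⟩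
          · change (((D.par y.1).map pn).getD (n + 1)) < (e y : ℕ)
            rw [e1]
            exact he _ _ (D.hrk y.1 z hz)
          · change v ∈ (L.getD (((D.par y.1).map pn).getD (n + 1)) (0, [])).2
            rw [e1, hgetD]
            exact (hbag z v').mpr hvz

end Pool.Agent.H60.SW
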