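import Pool.Agent.H76.SW.T

/-!
Module D5: the tree shaped structure of a tree decomposition.
-/

namespace Pool.Agent.H60.SW

open Relation Pool.Agent.H76.SW

/-- A surjection of the slots onto a bag, and a section of it. -/
theorem slots {α : Type} (S : Finset α) (k : ℕ) (hS : S.card ≤ k + 1) (p : α) :
    ∃ (sg : Fin (k + 1) → α) (rep : α → Fin (k + 1)),
      (∀ v ∈ S, sg (rep v) = v) ∧ (S.Nonempty → ∀ l, sg l ∈ S) := by
  classical
  let rep : α → Fin (k + 1) := fun v =>
    if h : v ∈ S then Fin.castLE hS (S.equivFin ⟨v, h⟩) else 0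
  have hrep : ∀ v ∈ S, ∀ w ∈ S, rep v = rep w → v = w := by
    intro v hv w hw h
    simp only [rep, dif_pos hv, dif_pos hw] at h
    have h2 := Fin.castLE_injective hS h
    have h3 := S.equivFin.injective h2
    exact congrArg Subtype.val h3
  let sg : Fin (k + 1) → α := fun l =>
    if h : ∃ v, v ∈ S ∧ rep v = l then h.choose else
      if hn : S.Nonempty then hn.choose else p
  refine ⟨sg, rep, ?_, ?_⟩
  · intro v hv
    have h : ∃ w, w ∈ S ∧ rep w = rep v := ⟨v, hv, rfl⟩
    have e : sg (rep v) = h.choose := dif_pos h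
    rw [e]
    exact hrep _ h.choose_spec.1 _ hv h.choose_spec.2
  · intro hn l
    by_cases h : ∃ v, v ∈ S ∧ rep v = l
    · have e : sg l = h.choose := dif_pos h
      rw [e]
      exact h.choose_spec.1
    · have e : sg l = hn.choose := by
        have e1 : sg l = if hn : S.Nonempty then hn.choose else p := dif_neg h
        rw [e1, dif_pos hn]
      rw [e]
      exact hn.choose_spec

theorem pf_D5 (h1 : U_d1_root) (h2 : U_d2_normal) : U_d5_start := by
  intro P Q J k n m src tgt hw ρ hρ hρr tp p q hgen pr hpr ja jb ha hb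
  classical
  obtain ⟨D, hD⟩ := h2 _ k (h1 (torso src tgt) k hw)
  choose sg rep hsr hsg using fun x : D.N => slots (D.B x) k (D.card x) p
  -- injectivity of `rep` on the bags
  have hinj : ∀ x v w, v ∈ D.B x → w ∈ D.B x → rep x v = rep x w → v = w := by
    intro x v w hv hw' h
    have := congrArg (sg x) h
    rwa [hsr x v hv, hsr x w hw'] at this
  let F : FS P (k + 1) :=
    { N := D.N
      fin := D.fin
      par := D.par
      rk := D.rk
      hrk := D.hrk
      f := fun x l => tp (sg x l)
      lk := fun x l l' => ∃ y v, D.par x = some y ∧ v ∈ D.B x ∧ v ∈ D.B y ∧ l = rep x v ∧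
        l' = rep y v
      inj := by
        rintro x l l' m' m'' ⟨y, v, hy, hvx, hvy, hl, hl'⟩ ⟨y', v', hy', hvx', hvy', hm, hm'⟩
        have hyy : y = y' := by
          have := hy.symm.trans hy'
          exact Option.some.inj this
        subst hyy
        constructor
        · intro h
          have : v = v' := hinj x v v' hvx hvx' (by rw [← hl, ← hm, h])
          rw [hl', hm', this]
        · intro h
          have : v = v' := hinj y v v' hvy hvy' (by rw [← hl', ← hm', h])
          rw [hl, hm, this]
      nf := by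
        intro x
        rcases hx : D.par x with _ | y
        · refine ⟨0, ?_⟩
          rintro l' ⟨y, v, hy, -⟩
          cases hy
        · obtain ⟨v, hv, hvy⟩ := Finset.not_subset.mp (hD x y hx)
          refine ⟨rep x v, ?_⟩
          rintro l' ⟨y', v', hy', hvx', hvy', hl, -⟩
          have hyy : y = y' := Option.some.inj hy'
          subst hyy
          have : v = v' := hinj x v v' hv hvx' hl
          exact hvy (this ▸ hvy') }
  -- common bags
  have hcom : ∀ v w : Fin n, (v = w ∨ ∃ i, (v = src i ∨ v = tgt i) ∧ (w = src i ∨ w = tgt i)) →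
      ∃ x, v ∈ D.B x ∧ w ∈ D.B x := by
    intro v w h
    by_cases hvw : v = w
    · subst hvw
      obtain ⟨x, hx⟩ := D.cov v
      exact ⟨x, hx, hx⟩
    · rcases h with h | ⟨i, hv, hw'⟩
      · exact absurd h hvw
      · apply D.edge
        refine ⟨hvw, i, ?_⟩
        rcases hv with hv | hv <;> rcases hw' with hw' | hw'
        · exact absurd (hv.trans hw'.symm) hvw
        · exact Or.inl ⟨hv.symm, hw'.symm⟩
        · exact Or.inr ⟨hw'.symm, hv.symm⟩
        · exact absurd (hv.trans hw'.symm) hvw
  have hmk : ∀ j, ∃ x, (pr j).1 ∈ D.B x ∧ (pr j).2 ∈ D.B x := by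
    intro j
    apply hcom
    rcases hpr j with h | ⟨i, h⟩
    · exact Or.inl h
    · refine Or.inr ⟨i, ?_, ?_⟩
      · exact Or.inl (by rw [h])
      · exact Or.inr (by rw [h])
  choose mk hmk1 hmk2 using hmk
  have hpja : (pr ja).1 = p := by rw [ha]
  have hqjb : (pr jb).1 = q := by rw [hb]
  refine ⟨fun j => F.f (mk j), fun j => rep (mk j) (pr j).1, fun j => rep (mk j) (pr j).2,
    ?_, ?_, F, mk, fun _ => rfl, ?_⟩
  · intro j
    refine ⟨?_, ?_⟩
    · change tp (sg (mk j) (rep (mk j) (pr j).1)) = tp (pr j).1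
      rw [hsr _ _ (hmk1 j)]
    · change tp (sg (mk j) (rep (mk j) (pr j).2)) = tp (pr j).2
      rw [hsr _ _ (hmk2 j)]
  · intro j hj
    change rep (mk j) (pr j).1 = rep (mk j) (pr j).2
    rw [hj]
  · -- the generated preorder
    let a0 : F.N × Fin (k + 1) := (mk ja, rep (mk ja) (pr ja).1)
    let b0 : F.N × Fin (k + 1) := (mk jb, rep (mk jb) (pr jb).1)
    change ∀ j j' l l' s s', ρ (tp (sg (mk j) l), s) (tp (sg (mk j') l'), s') →
      F.Gen ρ a0 b0 ((mk j, l), s) ((mk j', l'), s')
    have node : ∀ (x : D.N) (l l' : Fin (k + 1)) (s s' : Q),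
        ρ (tp (sg x l), s) (tp (sg x l'), s') → F.Gen ρ a0 b0 ((x, l), s) ((x, l'), s') := by
      intro x l l' s s' h
      exact ReflTransGen.single (FS.St.node (F := F) (ρ := ρ) (a := a0) (b := b0) x l l' s s' h)
    have up : ∀ (x y : D.N) (v : Fin n) (s : Q), D.par x = some y → v ∈ D.B x → v ∈ D.B y →
        F.Gen ρ a0 b0 ((x, rep x v), s) ((y, rep y v), s) ∧
        F.Gen ρ a0 b0 ((y, rep y v), s) ((x, rep x v), s) := by
      intro x y v s hxy hvx hvy
      have lk : F.lk x (rep x v) (rep y v) := ⟨y, v, hxy, hvx, hvy, rfl, rfl⟩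
      constructor
      · refine ReflTransGen.single (FS.St.up (F := F) (ρ := ρ) (a := a0) (b := b0) x y (rep x v) (rep y v) s s hxy lk ?_)
        change ρ (tp (sg x (rep x v)), s) (tp (sg y (rep y v)), s)
        rw [hsr _ _ hvx, hsr _ _ hvy]
        exact hρr _
      · refine ReflTransGen.single (FS.St.down (F := F) (ρ := ρ) (a := a0) (b := b0) x y (rep x v) (rep y v) s s hxy lk ?_)
        change ρ (tp (sg y (rep y v)), s) (tp (sg x (rep x v)), s)
        rw [hsr _ _ hvx, hsr _ _ hvy]
        exact hρr _
    have top : ∀ (v : Fin n) (t : D.N),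
        (∀ x, v ∈ D.B x → x = t ∨ ∃ y, D.par x = some y ∧ v ∈ D.B y) →
        ∀ (r : ℕ) (x : D.N), D.rk x = r → v ∈ D.B x → ∀ s,
        F.Gen ρ a0 b0 ((x, rep x v), s) ((t, rep t v), s) ∧
        F.Gen ρ a0 b0 ((t, rep t v), s) ((x, rep x v), s) := by
      intro v t ht r
      induction r using Nat.strong_induction_on with
      | _ r ih =>
        intro x hx hv s
        rcases ht x hv with h | ⟨y, hy, hvy⟩
        · subst h
          exact ⟨ReflTransGen.refl, ReflTransGen.refl⟩
        · have hlt : D.rk y < r := by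
            rw [← hx]
            exact D.hrk x y hy
          have h3 := ih (D.rk y) hlt y rfl hvy s
          have h4 := up x y v s hy hv hvy
          exact ⟨h4.1.trans h3.1, h3.2.trans h4.2⟩
    have same : ∀ (v : Fin n) (x x' : D.N) (l l' : Fin (k + 1)) (s : Q), v ∈ D.B x →
        v ∈ D.B x' → sg x l = v → sg x' l' = v →
        F.Gen ρ a0 b0 ((x, l), s) ((x', l'), s) := by
      intro v x x' l l' s hx hx' hl hl'
      obtain ⟨t, -, ht⟩ := D.conn v
      have e1 : F.Gen ρ a0 b0 ((x, l), s) ((x, rep x v), s) := by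
        apply node
        rw [hsr _ _ hx, hl]
        exact hρr _
      have e2 : F.Gen ρ a0 b0 ((x', rep x' v), s) ((x', l'), s) := by
        apply node
        rw [hsr _ _ hx', hl']
        exact hρr _
      exact ((e1.trans (top v t ht _ x rfl hx s).1).trans (top v t ht _ x' rfl hx' s).2).trans e2
    have haB : (pr ja).1 ∈ D.B (mk ja) := hmk1 ja
    have hbB : (pr jb).1 ∈ D.B (mk jb) := hmk1 jb
    have step : ∀ (w w' : Fin n) (t t' : Q), TStep src tgt ρ tp p q (w, t) (w', t') →
        ∀ (x x' : D.N) (l l' : Fin (k + 1)), w ∈ D.B x → w' ∈ D.B x' → sg x l = w →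
        sg x' l' = w' → F.Gen ρ a0 b0 ((x, l), t) ((x', l'), t') := by
      intro w w' t t' hst x x' l l' hx hx' hl hl'
      have hr : ρ (tp w, t) (tp w', t') := hst.1
      have key : ∀ z, w ∈ D.B z → w' ∈ D.B z →
          F.Gen ρ a0 b0 ((x, l), t) ((x', l'), t') := by
        intro z hz hz'
        have e1 := same w x z l (rep z w) t hx hz hl (hsr _ _ hz)
        have e3 := same w' z x' (rep z w') l' t' hz' hx' (hsr _ _ hz') hl'
        have e2 : F.Gen ρ a0 b0 ((z, rep z w), t) ((z, rep z w'), t') := by
          apply node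
          rw [hsr _ _ hz, hsr _ _ hz']
          exact hr
        exact (e1.trans e2).trans e3
      rcases hst.2 with h | h | ⟨hw1, hw2⟩
      · obtain ⟨z, hz, hz'⟩ := hcom w w' (Or.inl h)
        exact key z hz hz'
      · obtain ⟨z, hz, hz'⟩ := hcom w w' (Or.inr h)
        exact key z hz hz'
      · by_cases hww : w = w'
        · obtain ⟨z, hz, hz'⟩ := hcom w w' (Or.inl hww)
          exact key z hz hz'
        · change w = p ∨ w = q at hw1
          change w' = p ∨ w' = q at hw2
          rcases hw1 with hw1 | hw1 <;> rcases hw2 with hw2 | hw2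
          · exact absurd (hw1.trans hw2.symm) hww
          · have hwa : w = (pr ja).1 := by rw [hpja, hw1]
            have hwb : w' = (pr jb).1 := by rw [hqjb, hw2]
            have e1 := same w x (mk ja) l (rep (mk ja) (pr ja).1) t hx (by rw [hwa]; exact haB)
              hl (by rw [hsr _ _ haB, hwa])
            have e3 := same w' (mk jb) x' (rep (mk jb) (pr jb).1) l' t'
              (by rw [hwb]; exact hbB) hx' (by rw [hsr _ _ hbB, hwb]) hl'
            have e2 : F.Gen ρ a0 b0 (a0, t) (b0, t') := by
              refine ReflTransGen.single (FS.St.ab (F := F) (ρ := ρ) (a := a0) (b := b0) t t' ?_)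
              change ρ (tp (sg (mk ja) (rep (mk ja) (pr ja).1)), t)
                (tp (sg (mk jb) (rep (mk jb) (pr jb).1)), t')
              rw [hsr _ _ haB, hsr _ _ hbB, ← hwa, ← hwb]
              exact hr
            exact (e1.trans e2).trans e3
          · have hwa : w' = (pr ja).1 := by rw [hpja, hw2]
            have hwb : w = (pr jb).1 := by rw [hqjb, hw1]
            have e1 := same w x (mk jb) l (rep (mk jb) (pr jb).1) t hx (by rw [hwb]; exact hbB)
              hl (by rw [hsr _ _ hbB, hwb])
            have e3 := same w' (mk ja) x' (rep (mk ja) (pr ja).1) l' t'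
              (by rw [hwa]; exact haB) hx' (by rw [hsr _ _ haB, hwa]) hl'
            have e2 : F.Gen ρ a0 b0 (b0, t) (a0, t') := by
              refine ReflTransGen.single (FS.St.ba (F := F) (ρ := ρ) (a := a0) (b := b0) t t' ?_)
              change ρ (tp (sg (mk jb) (rep (mk jb) (pr jb).1)), t)
                (tp (sg (mk ja) (rep (mk ja) (pr ja).1)), t')
              rw [hsr _ _ haB, hsr _ _ hbB, ← hwa, ← hwb]
              exact hr
            exact (e1.trans e2).trans e3
          · exact absurd (hw1.trans hw2.symm) hww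
    have walk : ∀ (a b : Fin n × Q), ReflTransGen (TStep src tgt ρ tp p q) a b →
        ∀ (x x' : D.N) (l l' : Fin (k + 1)), a.1 ∈ D.B x → b.1 ∈ D.B x' → sg x l = a.1 →
        sg x' l' = b.1 → F.Gen ρ a0 b0 ((x, l), a.2) ((x', l'), b.2) := by
      intro a b hab
      induction hab with
      | refl =>
        intro x x' l l' hx hx' hl hl'
        exact same a.1 x x' l l' a.2 hx hx' hl hl'
      | tail hb' hst ih =>
        rename_i b c
        intro x x' l l' hx hx' hl hl'
        obtain ⟨z, hz⟩ := D.cov b.1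
        have e1 := ih x z l (rep z b.1) hx hz hl (hsr _ _ hz)
        have e2 := step b.1 c.1 b.2 c.2 hst z x' (rep z b.1) l' hz hx' (hsr _ _ hz) hl'
        exact e1.trans e2
    intro j j' l l' s s' hr
    have hj : sg (mk j) l ∈ D.B (mk j) := hsg (mk j) ⟨_, hmk1 j⟩ l
    have hj' : sg (mk j') l' ∈ D.B (mk j') := hsg (mk j') ⟨_, hmk1 j'⟩ l'
    exact walk (sg (mk j) l, s) (sg (mk j') l', s') (hgen _ _ _ _ hr) (mk j) (mk j') l l' hj hj'
      rfl rfl

end Pool.Agent.H60.SW
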