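import Pool.Agent.H76.SW.T

/-!
Module T2: the maximal under-approximation of a union of conjunctions of facts.
-/

namespace Pool.Agent.H60.SW

open Relation Pool.Agent.H76.SW

theorem pf_T2 (h1 : U_e2_top) (h2 : U_s1_symm) (h3 : U_s2_fin) (h4 : U_s3_id)
    (h5 : U_s4_child) (h6 : U_s5_lift) (h7 : U_s6_sat) (h8 : U_s7_node) (h9 : U_s8_hom)
    (h10 : U_q6_mono) (h11 : U_w1_wrap) (h12 : U_w2_wrap) (h13 : U_t1_top) :
    U_t2_approx := by
  intro A Q _ k hk r n hn tr U
  classical
  set q := Fintype.card Q with hq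
  set N := TN k q n with hN
  let Real : Set ((Fin N × Q) × (Fin N × Q)) × (Fin r → Fin N) → Prop := fun x =>
    ∃ t : CRQ A r, t.Width k ∧ t.Simple ∧ t.size ≤ TB k q n ∧ 0 < t.b.n ∧
      IsFQr tr N t x.1 x.2 ∧
      ∀ (V : Type) (E : V → A → V → Prop) (z : Fin r → V), t.Sat E z → USat tr U E z
  let S := {x : Set ((Fin N × Q) × (Fin N × Q)) × (Fin r → Fin N) // Real x}
  haveI hfS : Fintype S := Fintype.ofFinite S
  let rep : S → CRQ A r := fun x => x.2.choose
  have hrep : ∀ x : S, (rep x).Width k ∧ (rep x).Simple ∧ (rep x).size ≤ TB k q n ∧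
      0 < (rep x).b.n ∧ IsFQr tr N (rep x) x.1.1 x.1.2 ∧
      ∀ (V : Type) (E : V → A → V → Prop) (z : Fin r → V), (rep x).Sat E z → USat tr U E z :=
    fun x => x.2.choose_spec
  let Δ : Query A r := (Finset.univ : Finset S).toList.map rep
  have hmem : ∀ t ∈ Δ, ∃ x : S, t = rep x := by
    intro t ht
    obtain ⟨x, -, hx⟩ := List.mem_map.mp ht
    exact ⟨x, hx.symm⟩
  have hmem' : ∀ x : S, rep x ∈ Δ := by
    intro x
    exact List.mem_map.mpr ⟨x, Finset.mem_toList.mpr (Finset.mem_univ x), rfl⟩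
  have hcard : Fintype.card S ≤ 2 ^ ((N * q) ^ 2) * N ^ r := by
    have e1 : Fintype.card S ≤
        Fintype.card (Set ((Fin N × Q) × (Fin N × Q)) × (Fin r → Fin N)) :=
      Fintype.card_le_of_injective (fun x : S => x.1) Subtype.val_injective
    refine e1.trans (le_of_eq ?_)
    rw [Fintype.card_prod, Fintype.card_set, Fintype.card_prod, Fintype.card_prod,
      Fintype.card_fun, Fintype.card_fin, Fintype.card_fin, ← hq, sq]
  refine ⟨Δ, ?_, ?_, ?_, ?_, ?_, ?_⟩
  · intro t ht
    obtain ⟨x, rfl⟩ := hmem t ht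
    exact (hrep x).1
  · intro t ht
    obtain ⟨x, rfl⟩ := hmem t ht
    exact (hrep x).2.1
  · have e1 : Δ.size ≤ Δ.length * TB k q n := by
      have e2 : (Δ.map CRQ.size).sum ≤ (Δ.map CRQ.size).length • TB k q n := by
        apply List.sum_le_card_nsmul
        intro s hs
        obtain ⟨t, ht, rfl⟩ := List.mem_map.mp hs
        obtain ⟨x, rfl⟩ := hmem t ht
        exact (hrep x).2.2.1
      have e3 : Δ.size = (Δ.map CRQ.size).sum := rfl
      rw [e3]
      simpa using e2
    have e4 : Δ.length = Fintype.card S := by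
      simp [Δ]
    rw [e4] at e1
    refine e1.trans ?_
    have e5 := Nat.mul_le_mul_right (TB k q n) hcard
    exact e5
  · intro t ht
    obtain ⟨x, rfl⟩ := hmem t ht
    exact (hrep x).2.2.2.1
  · rintro V E z ⟨t, ht, hs⟩
    obtain ⟨x, rfl⟩ := hmem t ht
    exact (hrep x).2.2.2.2.2 V E z hs
  · intro Ω hΩw hΩ V hV E z hsat
    obtain ⟨ω, hω, hωs⟩ := hsat
    obtain ⟨n', m, src, tgt, ch, p, out, htw, hch, ⟨μ, hμ, hμo⟩, hback⟩ :=
      h1 k hk ω (hΩw ω hω) E z hωs hV
    let T : Term A := Term.node n' m src tgt ch p p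
    let gs := T.stp
    have hsym : Symm gs := h2 T
    have hocc : Occ gs T id := h4 T
    let μ' : Fin n' → Cv gs := fun v => cl gs (Sum.inl v)
    have hchs : ∀ i, (ch i).Sat (canon gs) (μ' (src i)) (μ' (tgt i)) := by
      intro i
      have e1 := h7 gs (ch i) (fun x => id (Sum.inr ⟨i, x⟩)) (h5 gs hocc i)
      have e2 := (h8 gs hocc i false).2.2
      have e3 := (h8 gs hocc i true).2.2
      have e4 : cl gs (id (Sum.inr ⟨i, (ch i).pt false⟩)) = μ' (src i) := by
        simpa using e2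
      have e5 : cl gs (id (Sum.inr ⟨i, (ch i).pt true⟩)) = μ' (tgt i) := by
        simpa using e3
      have e6 : (ch i).Sat (canon gs) (cl gs (id (Sum.inr ⟨i, (ch i).pt false⟩)))
        (cl gs (id (Sum.inr ⟨i, (ch i).pt true⟩))) := e1
      rw [e4, e5] at e6
      exact e6
    have hωc : ω.Sat (canon gs) (fun j => μ' (out j)) := hback _ (canon gs) μ' hchs
    haveI hfP : Finite T.Pos := h3 T
    haveI hfC : Finite (Cv gs) := by
      have : Function.Surjective (fun x : T.Pos => cl gs x) := fun y => Quot.exists_rep y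
      exact Finite.of_surjective _ this
    haveI hnC : Nonempty (Cv gs) := ⟨cl gs (Sum.inl p)⟩
    obtain ⟨f, hf, μ0, hfacts, hout⟩ := hΩ (Cv gs) (canon gs) (fun j => μ' (out j))
      ⟨ω, hω, hωc⟩
    have hwr : Wrap gs tr k := by
      rcases Nat.eq_or_lt_of_le hk with h | h
      · subst h
        exact h11 gs hsym tr
      · exact h12 k h gs hsym tr
    obtain ⟨t, ht0, htW, htS, htz, ⟨F, o', hFQ⟩, htc, hν⟩ :=
      h13 k hk tr src tgt ch p hwr htw hch out (Fin n) f.2 μ0 hout N (by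
        rw [Fintype.card_fin])
    rw [Fintype.card_fin] at htz
    have hreal : Real (F, o') := by
      refine ⟨t, htW, htS, htz, ht0, hFQ, ?_⟩
      intro V' E' z' hs
      obtain ⟨ν, hν1, hν2⟩ := hν V' E' z' hs
      exact ⟨f, hf, ν, fun e he => hν1 _ _ _ _ (hfacts e he), hν2⟩
    have htE : t.Sat E z := by
      obtain ⟨φ, hφ1, hφ2⟩ := h9 src tgt ch p p E μ hμ
      have e1 := (h10 (canon gs) E φ hφ2).2 r t _ htc
      have e2 : (fun i => φ (cl gs (Sum.inl (out i)))) = z := by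
        funext i
        rw [← hμo i]
        exact hφ1 (out i)
      rw [← e2]
      exact e1
    refine ⟨rep ⟨(F, o'), hreal⟩, hmem' _, ?_⟩
    have e1 := (hrep ⟨(F, o'), hreal⟩).2.2.2.2.1
    exact (e1 V E z).mpr ((hFQ V E z).mp htE)

end Pool.Agent.H60.SW
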